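import Mathlib

set_option autoImplicit false

open Finset Filter
open scoped Topology ENNReal ComplexConjugate InnerProductSpace

namespace Pool.Agent.Results.MP_1b30fb_an.Cut

/-- The group `ℤ_m ^ 2`. -/
abbrev G (m : ℕ) : Type := ZMod m × ZMod m

variable {m : ℕ} [NeZero m]

/-- The set `({0} × ℤ_m) ∪ {(t, t)} ∪ {(1, 0)}`. -/
def E (m : ℕ) [NeZero m] : Finset (G m) := univ.filter fun x => x.1 = 0 ∨ x.1 = x.2 ∨ x = (1, 0)

/-- The matrix `(e_b (x))`, `x ∈ E`, `b ∈ B`. -/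
noncomputable def M (E B : Finset (G m)) : Matrix E B ℂ :=
  fun x b => ZMod.stdAddChar (b.1.1 * x.1.1 + b.1.2 * x.1.2)

/-- The square of the Euclidean operator norm of a matrix. -/
noncomputable def nsq {α β : Type} [Fintype α] [Fintype β] (A : Matrix α β ℂ) : ℝ≥0∞ :=
  ⨆ (x : β → ℂ) (_ : ∑ j, ‖x j‖ ^ 2 = 1), ENNReal.ofReal (∑ i, ‖∑ j, A i j * x j‖ ^ 2)

/-- The Riesz ratio: the least `‖T‖ ^ 2 ‖T⁻¹‖ ^ 2` over `B` with `|B| = |E|` and `T` invertible. -/
noncomputable def ρ (E : Finset (G m)) : ℝ≥0∞ :=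
  ⨅ (B : Finset (G m)) (_ : B.card = E.card) (S : Matrix B E ℂ)
    (_ : M E B * S = 1 ∧ S * M E B = 1), nsq (M E B) * nsq S

noncomputable def op {α β : Type} [Fintype α] [Fintype β] [DecidableEq β] (A : Matrix α β ℂ) :
    EuclideanSpace ℂ β →L[ℂ] EuclideanSpace ℂ α :=
  LinearMap.toContinuousLinearMap (Matrix.toEuclideanLin A)

lemma opn {α β : Type} [Fintype α] [Fintype β] [DecidableEq β] (A : Matrix α β ℂ) :
    ENNReal.ofReal (‖op A‖ ^ 2) ≤ nsq A := by
  rcases eq_or_ne (nsq A) ⊤ with h | h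
  · simp [h]
  refine ENNReal.ofReal_le_of_le_toReal ((Real.le_sqrt (norm_nonneg _) ENNReal.toReal_nonneg).1
    (ContinuousLinearMap.opNorm_le_of_unit_norm (Real.sqrt_nonneg _) fun x hx => ?_))
  refine Real.le_sqrt_of_sq_le ((ENNReal.ofReal_le_iff_le_toReal h).1 ?_)
  refine le_trans (le_of_eq ?_) (le_iSup₂ (f := fun (x : β → ℂ) (_ : ∑ j, ‖x j‖ ^ 2 = 1) =>
    ENNReal.ofReal (∑ i, ‖∑ j, A i j * x j‖ ^ 2)) x.ofLp
    (by rw [← EuclideanSpace.norm_sq_eq, hx, one_pow]))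
  rw [EuclideanSpace.norm_sq_eq]
  rfl

noncomputable def T (E B : Finset (G m)) : EuclideanSpace ℂ B →L[ℂ] EuclideanSpace ℂ E :=
  op (M E B)

lemma cut {V β : Type} [Fintype V] [DecidableEq V] (B : Finset β) (s t : β → V)
    (hB : B.card ≤ Fintype.card V)
    (con : ∀ S : Finset V, (∀ b ∈ B, s b ∈ S ↔ t b ∈ S) → S = ∅ ∨ S = univ) {Δ k : ℕ}
    (deg : ∀ x, (B.filter fun b => s b = x ∨ t b = x).card ≤ Δ) (hk : k < Fintype.card V) :
    ∃ S : Finset V, k + 1 ≤ S.card ∧ S.card ≤ 1 + Δ * k ∧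
      (B.filter fun b => ¬(s b ∈ S ↔ t b ∈ S)).card ≤ 2 := by
  classical
  obtain ⟨r⟩ : Nonempty V := Fintype.card_pos_iff.1 (by omega)
  obtain ⟨N, N0, N1⟩ : ∃ N : ℕ → V → Prop, (∀ x, N 0 x ↔ x = r) ∧ ∀ n x, N (n + 1) x ↔
      ∃ b ∈ B, ∃ y, N n y ∧ (s b = x ∧ t b = y ∨ s b = y ∧ t b = x) :=
    ⟨Nat.rec (fun x => x = r)
      fun _ P x => ∃ b ∈ B, ∃ y, P y ∧ (s b = x ∧ t b = y ∨ s b = y ∧ t b = x),
      fun _ => Iff.rfl, fun _ _ => Iff.rfl⟩
  have all : ∀ x, ∃ n, N n x := by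
    obtain ⟨U, hU⟩ : ∃ U : Finset V, ∀ x, x ∈ U ↔ ∃ n, N n x :=
      ⟨(Set.toFinite {x | ∃ n, N n x}).toFinset, by simp⟩
    rcases con U (fun b hb => by
      simp only [hU]
      exact ⟨fun ⟨n, h⟩ => ⟨n + 1, (N1 _ _).2 ⟨b, hb, _, h, .inr ⟨rfl, rfl⟩⟩⟩,
        fun ⟨n, h⟩ => ⟨n + 1, (N1 _ _).2 ⟨b, hb, _, h, .inl ⟨rfl, rfl⟩⟩⟩⟩) with h | h
    · exact (eq_empty_iff_forall_notMem.1 h r ((hU r).2 ⟨0, (N0 r).2 rfl⟩)).elim
    · exact fun x => (hU x).1 (h ▸ mem_univ x)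
  let d := fun x => Nat.find (all x)
  have par : ∀ x, x ≠ r → ∃ b ∈ B, ∃ y, d y < d x ∧ (s b = x ∧ t b = y ∨ s b = y ∧ t b = x) := by
    intro x hx
    have h := Nat.find_spec (all x)
    rcases e : Nat.find (all x) with _ | n
    · rw [e] at h
      exact (hx ((N0 x).1 h)).elim
    · rw [e] at h
      obtain ⟨b, hb, y, hy, h⟩ := (N1 _ _).1 h
      exact ⟨b, hb, y, (Nat.find_min' _ hy).trans_lt (by simp [d, e]), h⟩
  clear_value d
  clear all N0 N1 N
  haveI : Nonempty V := ⟨r⟩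
  rcases B.eq_empty_or_nonempty with rfl | ⟨b0, -⟩
  · rcases con {r} (by simp) with h | h
    · simp at h
    · have : Fintype.card V = 1 := by simp [← card_univ, ← h]
      exact ⟨{r}, by simp; omega, by simp, by simp⟩
  haveI : Nonempty β := ⟨b0⟩
  choose! e eB p pd pe using par
  have inj : Set.InjOn e (univ.erase r : Finset V) := fun x hx y hy h => by
    have hx : x ≠ r := by simpa using hx
    have hy : y ≠ r := by simpa using hy
    have h1 := pe x hx
    have h2 := pe y hy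
    have h3 := pd x hx
    have h4 := pd y hy
    rw [h] at h1
    grind
  let R := fun a c => a ≠ r ∧ c = p a
  let D := fun v => univ.filter fun x => Relation.ReflTransGen R x v
  have Dr : D r = univ := eq_univ_of_forall fun x => by
    simp only [D, mem_filter, mem_univ, true_and]
    induction h : d x using Nat.strong_induction_on generalizing x with
    | _ n ih =>
    by_cases hx : x = r
    · exact hx ▸ .refl
    · exact .head ⟨hx, rfl⟩ (ih _ (h ▸ pd x hx) _ rfl)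
  obtain ⟨v, hv, vm⟩ := exists_max_image (univ.filter fun v => k + 1 ≤ (D v).card) d
    ⟨r, by simp [Dr]; omega⟩
  refine ⟨D v, (mem_filter.1 hv).2, ?_, ?_⟩
  · set W := univ.filter fun w => w ≠ r ∧ v = p w
    have h1 : D v ⊆ {v} ∪ W.biUnion D := fun x hx => by
      rcases (mem_filter.1 hx).2.cases_tail with h | ⟨w, h, h'⟩
      · simp [h]
      · exact mem_union_right _ (mem_biUnion.2 ⟨w, mem_filter.2 ⟨mem_univ _, h'⟩,
          mem_filter.2 ⟨mem_univ _, h⟩⟩)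
    have h2 : W.card ≤ Δ := (card_le_card_of_injOn e (fun w hw => by
      have hw := (mem_filter.1 hw).2
      have := pe w hw.1
      exact mem_filter.2 ⟨eB w hw.1, by grind⟩)
      (inj.mono fun w hw => by simpa using (mem_filter.1 hw).2.1)).trans (deg v)
    refine (card_le_card h1).trans ((card_union_le _ _).trans ?_)
    refine add_le_add (by simp) ((card_biUnion_le_card_mul _ _ k fun w hw => ?_).trans (by gcongr))
    have hw := (mem_filter.1 hw).2
    by_contra c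
    have := vm w (mem_filter.2 ⟨mem_univ _, by omega⟩)
    have := pd w hw.1
    grind
  · have h1 : (B.filter fun b => ¬(s b ∈ D v ↔ t b ∈ D v)) ⊆
        {e v} ∪ (B \ (univ.erase r).image e) := fun b hb => by
      by_cases h : b ∈ (univ.erase r).image e
      · obtain ⟨x, hx, rfl⟩ := mem_image.1 h
        have hx : x ≠ r := by simpa using hx
        have h2 := (mem_filter.1 hb).2
        have h3 := pe x hx
        have h4 : p x ∈ D v → x ∈ D v := fun h =>
          mem_filter.2 ⟨mem_univ _, .head ⟨hx, rfl⟩ (mem_filter.1 h).2⟩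
        have h5 : x ∈ D v → x = v ∨ p x ∈ D v := fun h => by
          rcases (mem_filter.1 h).2.cases_head with h | ⟨c, h, h'⟩
          · exact .inl h
          · exact .inr (mem_filter.2 ⟨mem_univ _, h.2 ▸ h'⟩)
        have : x = v := by grind
        simp [this]
      · exact mem_union_right _ (mem_sdiff.2 ⟨(mem_filter.1 hb).1, h⟩)
    refine (card_le_card h1).trans ((card_union_le _ _).trans ?_)
    rw [card_sdiff_of_subset (image_subset_iff.2 fun x hx => eB x (by simpa using hx)),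
      card_image_of_injOn inj, card_erase_of_mem (mem_univ _), card_univ, card_singleton]
    omega

lemma pars (f : ZMod m → ℂ) : ∑ k, ‖ZMod.dft f k‖ ^ 2 = m * ∑ j, ‖f j‖ ^ 2 := by
  have c : ∀ a : ZMod m, conj (ZMod.stdAddChar a) = ZMod.stdAddChar (-a) := fun a =>
    (AddChar.map_neg_eq_conj _ a).symm
  apply Complex.ofReal_injective
  push_cast
  simp only [← Complex.mul_conj', ZMod.dft_apply, smul_eq_mul, map_sum, map_mul, c, neg_neg,
    sum_mul_sum]
  rw [sum_comm, mul_sum]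
  refine sum_congr rfl fun i _ => ?_
  rw [sum_comm]
  have : ∀ j, ∑ k : ZMod m, ZMod.stdAddChar (-(i * k)) * f i * (ZMod.stdAddChar (j * k) *
      conj (f j)) = (if j - i = 0 then (m : ℂ) else 0) * (f i * conj (f j)) := fun j => by
    have := AddChar.sum_mulShift (j - i) (ZMod.isPrimitive_stdAddChar m)
    simp only [ZMod.card, Nat.cast_ite, Nat.cast_zero] at this
    rw [← this, sum_mul]
    refine sum_congr rfl fun k _ => ?_
    rw [show k * (j - i) = -(i * k) + j * k by ring, AddChar.map_add_eq_mul]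
    ring
  simp [this, sub_eq_zero]

lemma ineq {B : Finset (G m)} {S : EuclideanSpace ℂ (E m) →L[ℂ] EuclideanSpace ℂ B}
    (hS : T (E m) B ∘L S = .id ℂ _) (F H : ZMod m → ℂ) (hH : ∑ v, H v = 0) :
    m * ∑ b ∈ B, ‖F b.2 - H (b.1 + b.2)‖ ^ 2 ≤ ‖T (E m) B‖ ^ 2 * (∑ u, ‖F u‖ ^ 2 + ∑ u, ‖H u‖ ^ 2) ∧
    ∑ u, ‖F u‖ ^ 2 + ∑ u, ‖H u‖ ^ 2 ≤ ‖S‖ ^ 2 * (m * ∑ b ∈ B, ‖F b.2 - H (b.1 + b.2)‖ ^ 2) := by
  obtain ⟨f, rfl⟩ := ZMod.dft.surjective F
  obtain ⟨g, rfl⟩ := ZMod.dft.surjective H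
  have m0 : (0 : ℝ) < m := by exact_mod_cast NeZero.pos m
  have g0 : g 0 = 0 := by
    have := congrFun (ZMod.dft_dft g) 0
    rw [ZMod.dft_apply_zero, hH] at this
    simpa [NeZero.ne m] using this.symm
  let A : G m → ℂ := fun x => (if x.1 = 0 then f x.2 else 0) - if x.1 = x.2 then g x.2 else 0
  let a : EuclideanSpace ℂ (E m) := WithLp.toLp 2 fun x => A x
  have sE : ∀ {M : Type} [AddCommMonoid M] (φ : G m → M), (∀ x, A x = 0 → φ x = 0) →
      ∑ x : E m, φ x = ∑ x, φ x := fun φ h => by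
    rw [sum_coe_sort]
    refine sum_subset (subset_univ _) fun x _ hx => h x ?_
    simp only [E, mem_filter, mem_univ, true_and, not_or] at hx
    simp [A, hx.1, hx.2.1]
  have na : ‖a‖ ^ 2 = ∑ u, ‖f u‖ ^ 2 + ∑ u, ‖g u‖ ^ 2 := by
    rw [EuclideanSpace.norm_sq_eq, sE (fun x => ‖A x‖ ^ 2) fun x h => by simp [h],
      Fintype.sum_prod_type_right, ← sum_add_distrib]
    refine sum_congr rfl fun u _ => ?_
    have : ∀ x, ‖A (x, u)‖ ^ 2 =
        (if x = 0 then ‖f u‖ ^ 2 else 0) + if x = u then ‖g u‖ ^ 2 else 0 := fun x => by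
      simp only [A]
      split_ifs with h1 h2
      · simp [← h2, h1, g0]
      all_goals simp
    simp [this, sum_add_distrib]
  have nc : ‖(T (E m) B).adjoint a‖ ^ 2 =
      ∑ b ∈ B, ‖ZMod.dft f b.2 - ZMod.dft g (b.1 + b.2)‖ ^ 2 := by
    rw [EuclideanSpace.norm_sq_eq, ← sum_coe_sort B]
    refine sum_congr rfl fun b _ => ?_
    have h1 : (T (E m) B).adjoint a b = ⟪T (E m) B (EuclideanSpace.single b 1), a⟫_ℂ := by
      rw [← ContinuousLinearMap.adjoint_inner_right, EuclideanSpace.inner_single_left]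
      simp
    have h2 : ∀ x, T (E m) B (EuclideanSpace.single b 1) x =
        ZMod.stdAddChar (b.1.1 * x.1.1 + b.1.2 * x.1.2) := fun x => by simp [T, op, M]
    rw [h1, PiLp.inner_apply]
    simp only [h2, RCLike.inner_apply, ← AddChar.map_neg_eq_conj, a]
    rw [sE (fun x => A x * ZMod.stdAddChar (-(b.1.1 * x.1 + b.1.2 * x.2))) fun x h => by simp [h],
      Fintype.sum_prod_type_right, ZMod.dft_apply, ZMod.dft_apply, ← sum_sub_distrib]
    congr 2
    refine sum_congr rfl fun u _ => ?_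
    simp only [A, sub_mul, ite_mul, zero_mul, sum_sub_distrib, sum_ite_eq', mem_univ, if_true,
      smul_eq_mul]
    congr 1 <;> rw [mul_comm] <;> congr 2 <;> ring
  have h1 := (T (E m) B).adjoint.le_opNorm a
  have h2 := S.adjoint.le_opNorm ((T (E m) B).adjoint a)
  rw [← ContinuousLinearMap.comp_apply, ← ContinuousLinearMap.adjoint_comp, hS,
    ContinuousLinearMap.adjoint_id, ContinuousLinearMap.id_apply] at h2
  rw [LinearIsometryEquiv.norm_map] at h1 h2
  have h3 := pow_le_pow_left₀ (norm_nonneg _) h1 2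
  have h4 := pow_le_pow_left₀ (norm_nonneg _) h2 2
  rw [mul_pow] at h3 h4
  rw [pars, pars, ← mul_add, ← na, ← nc]
  constructor <;> nlinarith

lemma ind {B : Finset (G m)} {S : EuclideanSpace ℂ (E m) →L[ℂ] EuclideanSpace ℂ B}
    (hS : T (E m) B ∘L S = .id ℂ _) (U : Finset (ZMod m ⊕ ZMod m)) :
    ∃ α : ℝ, 0 ≤ α ∧ α * m ≤ U.card ∧
      m * ((B.filter fun b => ¬(.inl b.2 ∈ U ↔ .inr (b.1 + b.2) ∈ U)).card : ℝ) ≤
        ‖T (E m) B‖ ^ 2 * ∑ x, ((if x ∈ U then 1 else 0) - α) ^ 2 ∧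
      ∑ x, ((if x ∈ U then 1 else 0) - α) ^ 2 ≤ ‖S‖ ^ 2 *
        (m * ((B.filter fun b => ¬(.inl b.2 ∈ U ↔ .inr (b.1 + b.2) ∈ U)).card : ℝ)) := by
  have m0 : (0 : ℝ) < m := by exact_mod_cast NeZero.pos m
  set c : ℝ := ∑ v : ZMod m, if .inr v ∈ U then 1 else 0 with hc
  have := ineq hS (fun u => (((if .inl u ∈ U then 1 else 0) - c / m : ℝ) : ℂ))
    (fun u => (((if .inr u ∈ U then 1 else 0) - c / m : ℝ) : ℂ)) (by
      rw [← Complex.ofReal_sum, sum_sub_distrib, ← hc]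
      simp [mul_div_cancel₀, NeZero.ne m])
  simp only [← Complex.ofReal_sub, Complex.norm_real, Real.norm_eq_abs, sq_abs] at this
  refine ⟨c / m, by positivity, ?_, ?_⟩
  · rw [div_mul_cancel₀ _ m0.ne', hc, sum_boole]
    exact_mod_cast card_le_card_of_injOn Sum.inr (fun x hx => (mem_filter.1 hx).2)
      Sum.inr_injective.injOn
  · rw [Fintype.sum_sum_type, card_filter]
    push_cast
    rwa [sum_congr rfl (g := fun b => if ¬(Sum.inl b.2 ∈ U ↔ Sum.inr (b.1 + b.2) ∈ U) then 1 else 0)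
      fun b _ => ?_] at this
    rw [sub_sub_sub_cancel_right]
    by_cases h1 : Sum.inl b.2 ∈ U <;> by_cases h2 : Sum.inr (b.1 + b.2) ∈ U <;> simp [h1, h2]

lemma main (C : ℕ) (hm : 2 + 2 * (24 * C) * (24 * C) + 24 * C ≤ m) {B : Finset (G m)}
    (hB : B.card = (E m).card) {S : EuclideanSpace ℂ (E m) →L[ℂ] EuclideanSpace ℂ B}
    (hS : T (E m) B ∘L S = .id ℂ _) : (C : ℝ) ≤ ‖T (E m) B‖ ^ 2 * ‖S‖ ^ 2 := by
  by_contra! hC
  have m0 : (2 : ℝ) ≤ m := by exact_mod_cast (by omega : 2 ≤ m)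
  have cV : Fintype.card (ZMod m ⊕ ZMod m) = m + m := by simp
  have cE : B.card ≤ Fintype.card (ZMod m ⊕ ZMod m) := by
    rw [hB, ← card_univ]
    refine card_le_card_of_injOn (fun x => if x.1 = 0 then .inl x.2 else .inr x.2) (by simp)
      fun x hx y hy h => ?_
    simp only [E, coe_filter, mem_univ, true_and, Set.mem_setOf_eq, Prod.ext_iff] at hx hy ⊢
    grind
  have con : ∀ U : Finset (ZMod m ⊕ ZMod m),
      (∀ b ∈ B, .inl b.2 ∈ U ↔ .inr (b.1 + b.2) ∈ U) → U = ∅ ∨ U = univ := fun U h => by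
    obtain ⟨α, -, -, -, h2⟩ := ind hS U
    rw [filter_eq_empty_iff.2 fun b hb => not_not.2 (h b hb)] at h2
    simp only [card_empty, Nat.cast_zero, mul_zero] at h2
    have h3 := (sum_eq_zero_iff_of_nonneg fun _ _ => sq_nonneg _).1
      (h2.antisymm (sum_nonneg fun _ _ => sq_nonneg _))
    by_contra! c
    obtain ⟨x, hx⟩ := c.1
    obtain ⟨y, hy⟩ := not_forall.1 (mt eq_univ_of_forall c.2)
    have h4 := h3 x (mem_univ _)
    have h5 := h3 y (mem_univ _)
    simp [hx, hy, sub_eq_zero] at h4 h5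
    linarith
  have deg : ∀ x, m * ((B.filter fun b => Sum.inl b.2 = x ∨ Sum.inr (b.1 + b.2) = x).card : ℝ) ≤
      3 * ‖T (E m) B‖ ^ 2 := fun x => by
    obtain ⟨α, a0, a1, h1, -⟩ := ind hS {x}
    rw [filter_congr (q := fun b => Sum.inl b.2 = x ∨ Sum.inr (b.1 + b.2) = x)
      fun b _ => by simp only [mem_singleton]; grind] at h1
    refine h1.trans ?_
    rw [mul_comm]
    gcongr
    simp only [sub_sq, sum_add_distrib, sum_sub_distrib, ← sum_mul, ← mul_sum, ite_pow]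
    simp at a1 ⊢
    nlinarith
  have low : ∀ {Δ k : ℕ}, (∀ x, (B.filter fun b => Sum.inl b.2 = x ∨
      Sum.inr (b.1 + b.2) = x).card ≤ Δ) → 2 + 2 * (Δ * k) + k ≤ m →
        (k + 1 : ℝ) ≤ 8 * m * ‖S‖ ^ 2 := fun {Δ k} h hk => by
    obtain ⟨U, u1, u2, u3⟩ := cut B (fun b => Sum.inl b.2) (fun b => Sum.inr (b.1 + b.2)) cE con h
      (k := k) (by omega)
    obtain ⟨α, a0, a1, -, h2⟩ := ind hS U
    have u4 : 2 * (U.card : ℝ) ≤ m := by exact_mod_cast (by omega : 2 * U.card ≤ m)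
    have a2 : α ≤ 1 / 2 := by nlinarith
    have h3 : ∑ x ∈ U, (1 / 4 : ℝ) ≤ ∑ x, ((if x ∈ U then 1 else 0) - α) ^ 2 :=
      (sum_le_sum fun x hx => by rw [if_pos hx]; nlinarith).trans
        (sum_le_sum_of_subset_of_nonneg (subset_univ _) fun _ _ _ => sq_nonneg _)
    have u5 : (k + 1 : ℝ) ≤ U.card := by exact_mod_cast u1
    have u6 : ((B.filter fun b => ¬(Sum.inl b.2 ∈ U ↔ Sum.inr (b.1 + b.2) ∈ U)).card : ℝ) ≤ 2 := by
      exact_mod_cast u3
    rw [sum_const, nsmul_eq_mul] at h3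
    nlinarith [mul_le_mul_of_nonneg_left u6 (by positivity : 0 ≤ ‖S‖ ^ 2 * m)]
  have s1 := low (k := 0) (fun x => card_filter_le _ _) (by omega)
  obtain ⟨b, hb⟩ : B.Nonempty := card_pos.1 (hB ▸ card_pos.2 ⟨0, by simp [E]⟩)
  have t1 := deg (.inl b.2)
  have t2 : (1 : ℝ) ≤ (B.filter fun c : G m => Sum.inl c.2 = (Sum.inl b.2 : ZMod m ⊕ ZMod m) ∨
      Sum.inr (c.1 + c.2) = Sum.inl b.2).card := by
    exact_mod_cast card_pos.2 ⟨b, by simp [hb]⟩
  have t0 := sq_nonneg ‖T (E m) B‖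
  have s0 := sq_nonneg ‖S‖
  have := low (Δ := 24 * C) (k := 24 * C) (fun x => by
    have h := deg x
    have : ‖T (E m) B‖ ^ 2 ≤ 8 * m * C := by
      push_cast at s1
      nlinarith [mul_le_mul_of_nonneg_left s1 t0]
    have := le_of_mul_le_mul_left (h.trans (show _ ≤ (m : ℝ) * ((24 * C : ℕ) : ℝ) by
      push_cast; linarith)) (by linarith)
    exact_mod_cast this) (by linarith)
  push_cast at this
  nlinarith

theorem result : Tendsto (fun n : ℕ => ρ (E (n + 1))) atTop (𝓝 ⊤) := by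
  refine ENNReal.tendsto_nhds_top fun C => ?_
  filter_upwards [eventually_ge_atTop (2 + 2 * (24 * (C + 1)) * (24 * (C + 1)) + 24 * (C + 1))]
    with n hn
  refine lt_of_lt_of_le (b := ((C + 1 : ℕ) : ℝ≥0∞)) (by exact_mod_cast Nat.lt_succ_self C) ?_
  simp only [ρ, le_iInf_iff]
  intro B hB S hS
  refine le_trans ?_ (mul_le_mul' (opn _) (opn _))
  rw [← ENNReal.ofReal_mul (sq_nonneg _), ← ENNReal.ofReal_natCast]
  refine ENNReal.ofReal_le_ofReal (main (C + 1) (by omega) hB (S := op S) ?_)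
  ext1 x
  simp [T, op, Matrix.toLpLin_apply, hS.1]

end Pool.Agent.Results.MP_1b30fb_an.Cut
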